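import Pool.Agent.R352.CC.Rec

/-!
# The determinant of Calogero and Perelomov
-/

set_option autoImplicit false

open Finset Equiv

namespace Pool.Agent.R352.CC

section
variable {n : ℕ} [NeZero n] {ζ : ℂ}

lemma pow_mod_n (h : ζ ^ n = 1) (m : ℕ) : ζ ^ (m % n) = ζ ^ m := by
  conv_rhs => rw [← Nat.mod_add_div m n, pow_add, pow_mul, h, one_pow, mul_one]

/-- powers indexed by `Fin n` -/
noncomputable def G (ζ : ℂ) (a : Fin n) : ℂ := ζ ^ (a : ℕ)

lemma G_add (h : ζ ^ n = 1) (a b : Fin n) : G ζ (a + b) = G ζ a * G ζ b := by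
  rw [G, G, G, Fin.val_add, pow_mod_n h, pow_add]

lemma G_ne (h : ζ ^ n = 1) (a : Fin n) : G ζ a ≠ 0 := by
  refine pow_ne_zero _ ?_
  rintro rfl
  rw [zero_pow (NeZero.ne n)] at h
  exact zero_ne_one h

lemma G_sub (h : ζ ^ n = 1) (a b : Fin n) : G ζ (a - b) = G ζ a * (G ζ b)⁻¹ := by
  have h1 := G_add h (a - b) b
  rw [sub_add_cancel] at h1
  rw [h1, mul_assoc, mul_inv_cancel₀ (G_ne h b), mul_one]

lemma G_zero : G ζ (0 : Fin n) = 1 := by simp [G]

lemma G_neg (h : ζ ^ n = 1) (a : Fin n) : G ζ (-a) = (G ζ a)⁻¹ := by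
  have := G_sub h 0 a
  rwa [zero_sub, G_zero, one_mul] at this

lemma G_eq_one (hz : IsPrimitiveRoot ζ n) (a : Fin n) : G ζ a = 1 ↔ a = 0 := by
  rw [G, hz.pow_eq_one_iff_dvd]
  constructor
  · intro h
    have := Nat.eq_zero_of_dvd_of_lt h a.2
    exact Fin.ext (by simpa using this)
  · rintro rfl
    simp

/-- the eigenvalues -/
noncomputable def mu (n : ℕ) [NeZero n] (ζ : ℂ) (s : ℕ) : ℂ := ∑ m : Fin n, (1 - G ζ m)⁻¹ * ((G ζ m)⁻¹) ^ s

lemma mu_zero (hz : IsPrimitiveRoot ζ n) : mu n ζ 0 = ((n : ℂ) - 1) / 2 := by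
  have h := hz.pow_eq_one
  have h1 : mu n ζ 0 = ∑ m : Fin n, (1 - (G ζ m)⁻¹)⁻¹ := by
    rw [mu, ← Equiv.sum_comp (Equiv.neg (Fin n))]
    refine sum_congr rfl fun m _ => ?_
    simp [G_neg h]
  have h2 : mu n ζ 0 + mu n ζ 0 = ∑ m : Fin n, (if m = 0 then (0 : ℂ) else 1) := by
    conv_lhs => rw [h1]
    rw [← h1]
    conv_lhs => arg 2; rw [h1]
    rw [mu, ← sum_add_distrib]
    refine sum_congr rfl fun m _ => ?_
    split_ifs with hm
    · subst hm
      simp [G_zero]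
    · have h3 : G ζ m ≠ 1 := fun h4 => hm ((G_eq_one hz m).1 h4)
      have h5 := G_ne h m
      have h6 : 1 - G ζ m ≠ 0 := sub_ne_zero.2 h3.symm
      have h7 : G ζ m - 1 ≠ 0 := sub_ne_zero.2 h3
      have h8 : 1 - (G ζ m)⁻¹ = (G ζ m - 1) / G ζ m := by field_simp
      rw [h8, pow_zero, mul_one, inv_div]
      have h9 : G ζ m - 1 = -(1 - G ζ m) := by ring
      rw [h9, div_neg]
      field_simp
      ring
  have h3 : ∑ m : Fin n, (if m = 0 then (0 : ℂ) else 1) = (n : ℂ) - 1 := by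
    have : ∀ m : Fin n, (if m = 0 then (0 : ℂ) else 1) = 1 - (if m = 0 then (1 : ℂ) else 0) := by
      intro m; split_ifs <;> ring
    rw [sum_congr rfl fun m _ => this m, sum_sub_distrib, sum_ite_eq' univ (0 : Fin n) (fun _ => (1 : ℂ))]
    simp
  rw [h3] at h2
  linear_combination h2 / 2

lemma mu_succ (hz : IsPrimitiveRoot ζ n) (s : ℕ) (hs : s + 1 < n) : mu n ζ (s + 1) = mu n ζ s - 1 := by
  have h := hz.pow_eq_one
  have h1 : mu n ζ s - mu n ζ (s + 1) = ∑ m : Fin n, ((if m = 0 then (1 : ℂ) else 0) - ((G ζ m)⁻¹) ^ (s + 1)) := by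
    rw [mu, mu, ← sum_sub_distrib]
    refine sum_congr rfl fun m _ => ?_
    split_ifs with hm
    · subst hm
      simp [G_zero]
    · have h3 : G ζ m ≠ 1 := fun h4 => hm ((G_eq_one hz m).1 h4)
      have h5 := G_ne h m
      have h6 : 1 - G ζ m ≠ 0 := sub_ne_zero.2 h3.symm
      rw [pow_succ]
      field_simp
      ring
  have h2 : ∑ m : Fin n, ((G ζ m)⁻¹) ^ (s + 1) = 0 := by
    set w : ℂ := (ζ⁻¹) ^ (s + 1) with hw
    have hw1 : w ≠ 1 := by
      intro hcon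
      have h3 : ζ⁻¹ ^ (s + 1) = 1 := hcon
      rw [inv_pow, inv_eq_one] at h3
      have := Nat.le_of_dvd (by omega) ((hz.pow_eq_one_iff_dvd _).1 h3)
      omega
    have hwn : w ^ n = 1 := by
      rw [hw, ← pow_mul, mul_comm, pow_mul, inv_pow, h, inv_one, one_pow]
    have h3 : ∑ m : Fin n, ((G ζ m)⁻¹) ^ (s + 1) = ∑ m ∈ range n, w ^ m := by
      rw [← Fin.sum_univ_eq_sum_range (fun m => w ^ m) n]
      refine sum_congr rfl fun m _ => ?_
      rw [hw, G, ← inv_pow, ← pow_mul, ← pow_mul, mul_comm]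
    rw [h3]
    have h4 := geom_sum_mul w n
    rw [hwn, sub_self] at h4
    rcases mul_eq_zero.1 h4 with h5 | h5
    · exact h5
    · exact absurd (sub_eq_zero.1 h5) hw1
  rw [sum_sub_distrib, h2, sub_zero, sum_ite_eq' univ (0 : Fin n) (fun _ => (1 : ℂ))] at h1
  simp only [mem_univ, if_true] at h1
  linear_combination -h1

lemma mu_eq (hz : IsPrimitiveRoot ζ n) (s : ℕ) : s < n → mu n ζ s = ((n : ℂ) - 1) / 2 - s := by
  induction s with
  | zero => intro _; rw [mu_zero hz]; simp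
  | succ s ih =>
    intro hs
    rw [mu_succ hz s hs, ih (by omega)]
    push_cast
    ring

/-- the matrix -/
noncomputable def A (n : ℕ) [NeZero n] (ζ : ℂ) : Matrix (Fin n) (Fin n) ℂ := fun j k => (1 - G ζ (j - k))⁻¹

lemma A_mul (h : ζ ^ n = 1) : A n ζ * Matrix.vandermonde (G ζ) = Matrix.vandermonde (G ζ) * Matrix.diagonal (fun s : Fin n => mu n ζ s) := by
  ext j s
  rw [Matrix.mul_diagonal, Matrix.mul_apply, ← (Equiv.subLeft j).sum_comp, mu, mul_sum]
  refine sum_congr rfl fun m _ => ?_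
  simp only [A, Matrix.vandermonde_apply, Equiv.subLeft_apply, sub_sub_cancel]
  rw [G_sub h, mul_pow]
  ring

lemma det_A (hz : IsPrimitiveRoot ζ n) : (A n ζ).det = ∏ s : Fin n, (((n : ℂ) - 1) / 2 - s) := by
  have h1 := congrArg Matrix.det (A_mul (n := n) hz.pow_eq_one)
  rw [Matrix.det_mul, Matrix.det_mul, Matrix.det_diagonal, mul_comm] at h1
  have hV : (Matrix.vandermonde (G (n := n) ζ)).det ≠ 0 := by
    rw [Matrix.det_vandermonde_ne_zero_iff]
    intro a b hab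
    exact Fin.ext (hz.pow_inj a.2 b.2 hab)
  have h2 := mul_left_cancel₀ hV h1
  rw [h2]
  exact prod_congr rfl fun s _ => mu_eq hz s s.2

end

lemma prod_half (m : ℕ) : ∏ s : Fin (2 * m), ((((2 * m : ℕ) : ℂ) - 1) / 2 - s) =
    (-1) ^ m * ((2 * m - 1).doubleFactorial : ℂ) ^ 2 / 2 ^ (2 * m) := by
  rw [Fin.prod_univ_eq_prod_range (fun s : ℕ => ((((2 * m : ℕ) : ℂ) - 1) / 2 - (s : ℂ))) (2 * m)]
  induction m with
  | zero => simp
  | succ m ih =>
    rw [show 2 * (m + 1) = 2 * m + 1 + 1 by ring, prod_range_succ, prod_range_succ']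
    have h1 : ∏ k ∈ range (2 * m), ((((2 * m + 1 + 1 : ℕ) : ℂ) - 1) / 2 - ((k + 1 : ℕ) : ℂ)) =
        ∏ k ∈ range (2 * m), ((((2 * m : ℕ) : ℂ) - 1) / 2 - (k : ℂ)) := by
      refine prod_congr rfl fun k _ => ?_
      push_cast
      ring
    rw [h1, ih]
    have h2 : ((2 * m + 1 + 1 - 1).doubleFactorial : ℂ) = (2 * m + 1) * ((2 * m - 1).doubleFactorial : ℂ) := by
      rcases m with _ | m
      · simp
      · have e1 : 2 * (m + 1) + 1 + 1 - 1 = (2 * m + 1) + 2 := by omega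
        have e2 : 2 * (m + 1) - 1 = 2 * m + 1 := by omega
        rw [e1, e2, Nat.doubleFactorial]
        push_cast
        ring
    rw [h2, pow_succ (-1 : ℂ), pow_succ (2 : ℂ), pow_succ (2 : ℂ)]
    push_cast
    field_simp
    ring

end Pool.Agent.R352.CC
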