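import Mathlib

/-!
# Permanents and determinants of the matrix `1 / (x_j - x_i)` with zero diagonal
-/

set_option autoImplicit false

open Finset Equiv

namespace Pool.Agent.R352.CC

variable {K : Type*} [Field K]

/-- the weight of a permutation (`0` if it has a fixed point) -/
def wt {α : Type} [Fintype α] (x : α → K) (τ : Perm α) : K := ∏ i, (x (τ i) - x i)⁻¹

/-- permanent version -/
def PA {α : Type} [Fintype α] [DecidableEq α] (x : α → K) : K := ∑ τ : Perm α, wt x τ
/-- determinant version -/
def PD {α : Type} [Fintype α] [DecidableEq α] (x : α → K) : K := ∑ τ : Perm α, ((Perm.sign τ : ℤ) : K) * wt x τ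

lemma wt_congr {α β : Type} [Fintype α] [Fintype β] (e : α ≃ β) (x : β → K) (τ : Perm α) :
    wt x (e.permCongr τ) = wt (x ∘ e) τ := by
  unfold wt
  rw [← e.prod_comp]
  refine prod_congr rfl fun i _ => ?_
  simp [Equiv.permCongr_apply]

lemma PA_congr {α β : Type} [Fintype α] [Fintype β] [DecidableEq α] [DecidableEq β] (e : α ≃ β) (x : β → K) :
    PA x = PA (x ∘ e) := by
  unfold PA
  rw [← (e.permCongr).sum_comp]
  exact sum_congr rfl fun τ _ => wt_congr e x τ

lemma PD_congr {α β : Type} [Fintype α] [Fintype β] [DecidableEq α] [DecidableEq β] (e : α ≃ β) (x : β → K) :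
    PD x = PD (x ∘ e) := by
  unfold PD
  rw [← (e.permCongr).sum_comp]
  refine sum_congr rfl fun τ _ => ?_
  rw [wt_congr e x τ, Perm.sign_permCongr]

/-- the weight of an inserted permutation -/
lemma wt_insert {α : Type} [Fintype α] [DecidableEq α] (x : Option α → K) (τ : Perm α) (j : α) :
    wt x (swap none (some (τ j)) * optionCongr τ) =
      (x (some (τ j)) - x none)⁻¹ * (x none - x (some j))⁻¹ * ∏ k ∈ univ.erase j, (x (some (τ k)) - x (some k))⁻¹ := by
  unfold wt
  rw [Fintype.prod_option, ← mul_prod_erase univ _ (mem_univ j), ← mul_assoc]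
  congr 1
  · simp
  · refine prod_congr rfl fun k hk => ?_
    have hkj : k ≠ j := (mem_erase.1 hk).1
    have : swap none (some (τ j)) (some (τ k)) = some (τ k) := by
      refine swap_apply_of_ne_of_ne (by simp) ?_
      intro h
      exact hkj (τ.injective (Option.some_injective _ h))
    simp [this]

lemma wt_none {α : Type} [Fintype α] [DecidableEq α] (x : Option α → K) (τ : Perm α) :
    wt x (swap none none * optionCongr τ) = 0 := by
  unfold wt
  rw [Fintype.prod_option]
  simp

/-- telescoping: for a permutation without fixed points the sum over all insertions vanishes -/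
lemma insert_sum {α : Type} [Fintype α] [DecidableEq α] (x : Option α → K) (hx : Function.Injective x) (τ : Perm α)
    (hτ : ∀ j, τ j ≠ j) :
    ∑ j, wt x (swap none (some (τ j)) * optionCongr τ) = 0 := by
  have h1 : ∀ j, wt x (swap none (some (τ j)) * optionCongr τ) =
      (∏ k, (x (some (τ k)) - x (some k))⁻¹) * ((x none - x (some j))⁻¹ - (x none - x (some (τ j)))⁻¹) := by
    intro j
    rw [wt_insert, ← mul_prod_erase univ _ (mem_univ j)]
    have a1 : x (some (τ j)) - x none ≠ 0 := sub_ne_zero.2 fun h => by simpa using hx h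
    have a2 : x none - x (some j) ≠ 0 := sub_ne_zero.2 fun h => by simpa using hx h
    have a3 : x (some (τ j)) - x (some j) ≠ 0 := sub_ne_zero.2 fun h => hτ j (by simpa using hx h)
    have a4 : x none - x (some (τ j)) ≠ 0 := sub_ne_zero.2 fun h => by simpa using hx h
    field_simp
    ring
  simp only [h1]
  rw [← mul_sum, sum_sub_distrib, Equiv.sum_comp τ (fun j => (x none - x (some j))⁻¹), sub_self, mul_zero]

/-- for every permutation only the insertions at fixed points contribute -/
lemma insert_sum' {α : Type} [Fintype α] [DecidableEq α] (x : Option α → K) (hx : Function.Injective x) (τ : Perm α) :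
    ∑ j, wt x (swap none (some (τ j)) * optionCongr τ) =
      ∑ j, if τ j = j then -((x none - x (some j)) ^ 2)⁻¹ * ∏ k ∈ univ.erase j, (x (some (τ k)) - x (some k))⁻¹ else 0 := by
  by_cases hτ : ∀ j, τ j ≠ j
  · rw [insert_sum x hx τ hτ]
    refine (sum_eq_zero fun j _ => ?_).symm
    rw [if_neg (hτ j)]
  · push Not at hτ
    obtain ⟨j0, hj0⟩ := hτ
    refine sum_congr rfl fun j _ => ?_
    rw [wt_insert]
    split_ifs with h
    · rw [h]
      congr 1
      have a2 : x none - x (some j) ≠ 0 := sub_ne_zero.2 fun h => by simpa using hx h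
      have a1 : x (some j) - x none ≠ 0 := sub_ne_zero.2 fun h => by simpa using hx h
      field_simp
      ring
    · have hj : j0 ≠ j := by
        rintro rfl
        exact h hj0
      have : ∏ k ∈ univ.erase j, (x (some (τ k)) - x (some k))⁻¹ = 0 := by
        refine prod_eq_zero (mem_erase.2 ⟨hj, mem_univ j0⟩) ?_
        rw [hj0, sub_self, inv_zero]
      rw [this, mul_zero]

/-- sums over the permutations fixing `j` -/
lemma sum_fixing {α : Type} [Fintype α] [DecidableEq α] (j : α) (F : Perm α → K) :
    ∑ τ : Perm α, (if τ j = j then F τ else 0) = ∑ σ : Perm {k // k ≠ j}, F (Perm.ofSubtype σ) := by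
  rw [← sum_filter]
  let e := Perm.subtypeEquivSubtypePerm (fun k => k ≠ j)
  have h1 : ∀ τ : Perm α, τ ∈ univ.filter (fun τ : Perm α => τ j = j) ↔ ∀ a, ¬ (a ≠ j) → τ a = a := by
    intro τ
    simp
  rw [sum_subtype _ h1, ← e.sum_comp]
  exact sum_congr rfl fun σ _ => rfl

lemma prod_fixing {α : Type} [Fintype α] [DecidableEq α] (j : α) (x : Option α → K) (σ : Perm {k // k ≠ j}) :
    ∏ k ∈ univ.erase j, (x (some (Perm.ofSubtype σ k)) - x (some k))⁻¹ = wt (fun k : {k // k ≠ j} => x (some k)) σ := by
  rw [prod_subtype (univ.erase j) (p := fun k => k ≠ j) (by simp), wt]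
  refine prod_congr rfl fun k _ => ?_
  rw [Perm.ofSubtype_apply_coe]

/-- the recursion for the permanent -/
lemma PA_rec {α : Type} [Fintype α] [DecidableEq α] (x : Option α → K) (hx : Function.Injective x) :
    PA x = -∑ j : α, ((x none - x (some j)) ^ 2)⁻¹ * PA (fun k : {k // k ≠ j} => x (some k)) := by
  unfold PA
  rw [← Perm.decomposeOption.symm.sum_comp, Fintype.sum_prod_type_right]
  have h1 : ∀ τ : Perm α, ∑ i : Option α, wt x (Perm.decomposeOption.symm (i, τ)) =
      ∑ j, if τ j = j then -((x none - x (some j)) ^ 2)⁻¹ * ∏ k ∈ univ.erase j, (x (some (τ k)) - x (some k))⁻¹ else 0 := by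
    intro τ
    rw [Fintype.sum_option, ← insert_sum' x hx τ, ← Equiv.sum_comp τ]
    have := wt_none x τ
    rw [Perm.decomposeOption]
    simp only [Equiv.coe_fn_symm_mk]
    rw [this, zero_add]
  rw [sum_congr rfl fun τ _ => h1 τ, sum_comm, ← sum_neg_distrib]
  refine sum_congr rfl fun j _ => ?_
  rw [sum_fixing j (fun τ => -((x none - x (some j)) ^ 2)⁻¹ * ∏ k ∈ univ.erase j, (x (some (τ k)) - x (some k))⁻¹),
    mul_sum, ← sum_neg_distrib]
  refine sum_congr rfl fun σ _ => ?_
  rw [prod_fixing, neg_mul]

/-- the recursion for the determinant -/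
lemma PD_rec {α : Type} [Fintype α] [DecidableEq α] (x : Option α → K) (hx : Function.Injective x) :
    PD x = ∑ j : α, ((x none - x (some j)) ^ 2)⁻¹ * PD (fun k : {k // k ≠ j} => x (some k)) := by
  unfold PD
  rw [← Perm.decomposeOption.symm.sum_comp, Fintype.sum_prod_type_right]
  have h1 : ∀ τ : Perm α, ∑ i : Option α, ((Perm.sign (Perm.decomposeOption.symm (i, τ)) : ℤ) : K) *
        wt x (Perm.decomposeOption.symm (i, τ)) =
      ∑ j, if τ j = j then ((Perm.sign τ : ℤ) : K) * (((x none - x (some j)) ^ 2)⁻¹ *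
        ∏ k ∈ univ.erase j, (x (some (τ k)) - x (some k))⁻¹) else 0 := by
    intro τ
    have h2 := insert_sum' x hx τ
    rw [Fintype.sum_option, ← Equiv.sum_comp τ]
    have h0 := wt_none x τ
    rw [Perm.decomposeOption]
    simp only [Equiv.coe_fn_symm_mk]
    rw [h0, mul_zero, zero_add]
    have h3 : ∀ j, ((Perm.sign (swap none (some (τ j)) * optionCongr τ) : ℤ) : K) = -((Perm.sign τ : ℤ) : K) := by
      intro j
      rw [Perm.sign_mul, Perm.sign_swap (by simp), optionCongr_sign]
      push_cast
      ring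
    simp only [h3]
    rw [← mul_sum, h2, mul_sum]
    refine sum_congr rfl fun j _ => ?_
    split_ifs
    · ring
    · ring
  rw [sum_congr rfl fun τ _ => h1 τ, sum_comm]
  refine sum_congr rfl fun j _ => ?_
  rw [sum_fixing j (fun τ => ((Perm.sign τ : ℤ) : K) * (((x none - x (some j)) ^ 2)⁻¹ *
    ∏ k ∈ univ.erase j, (x (some (τ k)) - x (some k))⁻¹)), mul_sum]
  refine sum_congr rfl fun σ _ => ?_
  rw [prod_fixing, Perm.sign_ofSubtype]
  ring

/-- permanent and determinant agree up to sign -/
theorem PD_eq (n : ℕ) : ∀ (α : Type) [Fintype α] [DecidableEq α] (x : α → K), Function.Injective x →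
    Fintype.card α = 2 * n → PD x = (-1) ^ n * PA x := by
  induction n with
  | zero =>
    intro α _ _ x hx hc
    have : IsEmpty α := Fintype.card_eq_zero_iff.1 (by simpa using hc)
    simp [PD, PA, wt]
  | succ n ih =>
    intro α _ _ x hx hc
    have hne : Nonempty α := Fintype.card_pos_iff.1 (by omega)
    obtain ⟨a⟩ := hne
    let e : Option {b // b ≠ a} ≃ α := Equiv.optionSubtypeNe a
    rw [PD_congr e x, PA_congr e x, PD_rec _ (hx.comp e.injective), PA_rec _ (hx.comp e.injective), mul_neg, mul_sum,
      ← sum_neg_distrib]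
    refine sum_congr rfl fun j _ => ?_
    rw [ih {k // k ≠ j} _ ?_ ?_]
    · ring
    · intro k k' hkk
      have := e.injective (hx hkk)
      exact Subtype.ext (Option.some_injective _ this)
    · have h1 : Fintype.card {k : {b // b ≠ a} // k ≠ j} = Fintype.card {b // b ≠ a} - 1 := Set.card_ne_eq j
      have h2 : Fintype.card {b // b ≠ a} = Fintype.card α - 1 := Set.card_ne_eq a
      rw [h1, h2, hc]
      omega

end Pool.Agent.R352.CC
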